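import Pool.Agent.H41.HZ.Stm

/-!
# Project HZ, module EXI: the model exists
-/

set_option autoImplicit false

namespace Pool.Agent.H76.HZ

open MeasureTheory Filter Topology ProbabilityTheory
open Pool.Agent.H34.ND (Free firstAfter)
open Pool.Agent.H41.LD (Past)
open Pool.Agent.H41.HZ

/-- the uniform distribution on `[0, 1]` -/
noncomputable def nu : Measure ℝ := volume.restrict (Set.Icc 0 1)

instance : IsProbabilityMeasure nu :=
  ⟨by rw [nu, Measure.restrict_apply_univ, Real.volume_Icc, sub_zero, ENNReal.ofReal_one]⟩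

lemma nu_Ici {c : ℝ} (h0 : 0 ≤ c) (h1 : c ≤ 1) : nu.real (Set.Ici c) = 1 - c := by
  rw [nu, measureReal_restrict_apply measurableSet_Ici]
  have h : Set.Ici c ∩ Set.Icc 0 1 = Set.Icc c 1 := by
    ext x
    simp only [Set.mem_inter_iff, Set.mem_Ici, Set.mem_Icc]
    exact ⟨fun h => ⟨h.1, h.2.2⟩, fun h => ⟨h.1, h0.trans h.1, h.2⟩⟩
  rw [h, Real.volume_real_Icc_of_le h1]

/-- the product measure -/
noncomputable def Pm : Measure (ℕ → ℝ) := Measure.infinitePi fun _ => nu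

instance : IsProbabilityMeasure Pm := by unfold Pm; infer_instance

/-- the `σ`-algebra of the coordinates up to `n` -/
@[instance_reducible]
def Co (n : ℕ) : MeasurableSpace (ℕ → ℝ) :=
  ⨆ k ∈ {k : ℕ | k ≤ n}, MeasurableSpace.comap (fun u : ℕ → ℝ => u k) inferInstance

lemma co_mono {m n : ℕ} (h : m ≤ n) : Co m ≤ Co n := by
  unfold Co
  exact biSup_mono fun k (hk : k ≤ m) => hk.trans h

lemma co_le (n : ℕ) : Co n ≤ MeasurableSpace.pi := by
  unfold Co
  exact iSup₂_le fun k _ => (measurable_pi_apply k).comap_le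

lemma meas_coord {k n : ℕ} (h : k ≤ n) : Measurable[Co n] (fun u : ℕ → ℝ => u k) := by
  have h1 : MeasurableSpace.comap (fun u : ℕ → ℝ => u k) inferInstance ≤ Co n := by
    unfold Co
    exact le_iSup₂_of_le k h le_rfl
  exact (comap_measurable (fun u : ℕ → ℝ => u k)).mono h1 le_rfl

lemma indep (n : ℕ) :
    Indep (MeasurableSpace.comap (fun u : ℕ → ℝ => u (n + 1)) inferInstance) (Co n) Pm := by
  have h : iIndepFun (fun (i : ℕ) (u : ℕ → ℝ) => u i) Pm :=
    iIndepFun_infinitePi (P := fun _ => nu) (X := fun _ x => x) (fun _ => measurable_id)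
  have h2 : Indep (⨆ k ∈ ({n + 1} : Set ℕ), MeasurableSpace.comap (fun u : ℕ → ℝ => u k) inferInstance)
      (⨆ k ∈ {k : ℕ | k ≤ n}, MeasurableSpace.comap (fun u : ℕ → ℝ => u k) inferInstance) Pm :=
    indep_iSup_of_disjoint (fun k => (measurable_pi_apply k).comap_le) h (by simp)
  rwa [iSup_singleton] at h2

lemma step {n : ℕ} {D : Set (ℕ → ℝ)} (hD : MeasurableSet[Co n] D) {c : ℝ} (h0 : 0 ≤ c)
    (h1 : c ≤ 1) : Pm.real (D ∩ {u | c ≤ u (n + 1)}) = Pm.real D * (1 - c) := by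
  have h2 := (Indep_iff _ _ _).1 (indep n) {u | c ≤ u (n + 1)} D
    ⟨Set.Ici c, measurableSet_Ici, rfl⟩ hD
  have h3 : Pm.real {u | c ≤ u (n + 1)} = 1 - c := by
    rw [← nu_Ici h0 h1]
    exact (measurePreserving_eval_infinitePi (fun _ : ℕ => nu) (n + 1)).measureReal_preimage
      measurableSet_Ici.nullMeasurableSet
  rw [Set.inter_comm, measureReal_def, h2, ENNReal.toReal_mul, ← measureReal_def,
    ← measureReal_def, h3, mul_comm]

/-- the conditional probability of the element `n`, if `a` is the last element before `n` -/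
noncomputable def hz (Λ : ℝ → ℝ) (a n : ℕ) : ℝ :=
  1 - Real.exp (-(Λ (((n : ℝ) - a) / Real.log a) - Λ (((n : ℝ) - 1 - a) / Real.log a)))

open Classical in
/-- the last element up to `n` -/
noncomputable def last (Λ : ℝ → ℝ) (u : ℕ → ℝ) : ℕ → ℕ
  | 0 => 0
  | n + 1 => if last Λ u n < 2 ∨ u (n + 1) < hz Λ (last Λ u n) (n + 1) then n + 1 else last Λ u n

/-- the event that `n` is an element -/
def Ev (Λ : ℝ → ℝ) (n : ℕ) : Set (ℕ → ℝ) := {u | last Λ u n = n}

lemma meas_last (Λ : ℝ → ℝ) (n : ℕ) : Measurable[Co n] (fun u => last Λ u n) := by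
  classical
  induction n with
  | zero => exact @measurable_const _ _ _ (Co 0) 0
  | succ n ih =>
    have h1 : Measurable[Co (n + 1)] (fun u => last Λ u n) := ih.mono (co_mono n.le_succ) le_rfl
    have h2 : Measurable[Co (n + 1)] (fun u : ℕ → ℝ => u (n + 1)) := meas_coord le_rfl
    have h3 : Measurable[Co (n + 1)] (fun u => hz Λ (last Λ u n) (n + 1)) :=
      (measurable_of_countable (fun a : ℕ => hz Λ a (n + 1))).comp h1
    have h4 : MeasurableSet[Co (n + 1)]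
        {u | last Λ u n < 2 ∨ u (n + 1) < hz Λ (last Λ u n) (n + 1)} :=
      @MeasurableSet.union _ (Co (n + 1)) _ _ (h1 (measurableSet_Iio (a := 2)))
        (measurableSet_lt h2 h3)
    have h5 : (fun u => last Λ u (n + 1)) = fun u =>
        if last Λ u n < 2 ∨ u (n + 1) < hz Λ (last Λ u n) (n + 1) then n + 1
          else last Λ u n := by
      funext u; rw [last]
    rw [h5]
    exact Measurable.ite h4 (@measurable_const _ _ _ (Co (n + 1)) _) h1

lemma meas_ev (Λ : ℝ → ℝ) {k n : ℕ} (h : k ≤ n) : MeasurableSet[Co n] (Ev Λ k) :=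
  co_mono h _ ((meas_last Λ k) (measurableSet_singleton k))

lemma past_le (Λ : ℝ → ℝ) (n : ℕ) : Past (Ev Λ) n ≤ Co n := by
  unfold Past
  refine MeasurableSpace.generateFrom_le ?_
  rintro _ ⟨k, hk, rfl⟩
  exact meas_ev Λ hk

lemma free_iff {Λ : ℝ → ℝ} {n : ℕ} (hn : 2 ≤ n) {u : ℕ → ℝ} (hu : last Λ u n = n) (h : ℕ) :
    (u ∈ Free (Ev Λ) n (n + h) ↔ ∀ j < h, hz Λ n (n + j + 1) ≤ u (n + j + 1)) ∧
    (u ∈ Free (Ev Λ) n (n + h) → last Λ u (n + h) = n) := by
  induction h with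
  | zero =>
    refine ⟨⟨fun _ j hj => absurd hj (Nat.not_lt_zero j), fun _ m h1 h2 => ?_⟩, fun _ => hu⟩
    omega
  | succ h ih =>
    obtain ⟨ih1, ih2⟩ := ih
    have e1 : u ∈ Free (Ev Λ) n (n + (h + 1)) ↔ u ∈ Free (Ev Λ) n (n + h) ∧ u ∉ Ev Λ (n + h + 1) := by
      constructor
      · intro h1
        exact ⟨fun m h2 h3 => h1 m h2 (by omega), h1 (n + h + 1) (by omega) (by omega)⟩
      · rintro ⟨h1, h2⟩ m h3 h4
        rcases Nat.lt_or_ge (n + h) m with h5 | h5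
        · obtain rfl : m = n + h + 1 := by omega
          exact h2
        · exact h1 m h3 h5
    have e2 : u ∈ Free (Ev Λ) n (n + h) →
        (u ∉ Ev Λ (n + h + 1) ↔ hz Λ n (n + h + 1) ≤ u (n + h + 1)) ∧
        (u ∉ Ev Λ (n + h + 1) → last Λ u (n + h + 1) = n) := by
      intro h1
      have h2 := ih2 h1
      have h3 : last Λ u (n + h + 1) =
          if u (n + h + 1) < hz Λ n (n + h + 1) then n + h + 1 else n := by
        rw [last, h2]
        simp only [show ¬ n < 2 by omega, false_or]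
      unfold Ev
      rw [Set.mem_ofPred_eq, h3]
      split_ifs with h4
      · exact ⟨⟨fun h5 => absurd rfl h5, fun h5 => absurd h4 (not_lt.2 h5)⟩,
          fun h5 => absurd rfl h5⟩
      · exact ⟨⟨fun _ => not_lt.1 h4, fun _ => by omega⟩, fun _ => rfl⟩
    refine ⟨?_, fun h1 => ?_⟩
    · rw [e1, Nat.forall_lt_succ_right]
      constructor
      · rintro ⟨h1, h2⟩
        exact ⟨ih1.1 h1, (e2 h1).1.1 h2⟩
      · rintro ⟨h1, h2⟩
        have h3 := ih1.2 h1
        exact ⟨h3, (e2 h3).1.2 h2⟩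
    · obtain ⟨h2, h3⟩ := e1.1 h1
      exact (e2 h2).2 h3

/-- the coordinates after `n` are large -/
def Tl (Λ : ℝ → ℝ) (n h : ℕ) : Set (ℕ → ℝ) := {u | ∀ j < h, hz Λ n (n + j + 1) ≤ u (n + j + 1)}

lemma tl_succ (Λ : ℝ → ℝ) (n h : ℕ) :
    Tl Λ n (h + 1) = Tl Λ n h ∩ {u | hz Λ n (n + h + 1) ≤ u (n + h + 1)} := by
  ext u
  simp only [Tl, Set.mem_ofPred_eq, Set.mem_inter_iff]
  exact Nat.forall_lt_succ_right

lemma hz_bounds {Λ : ℝ → ℝ} (hΛ : Monotone Λ) {n : ℕ} (hn : 2 ≤ n) (h : ℕ) :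
    0 ≤ hz Λ n (n + h + 1) ∧ hz Λ n (n + h + 1) ≤ 1 ∧ 1 - hz Λ n (n + h + 1) =
      Real.exp (-Λ (((h + 1 : ℕ) : ℝ) / Real.log n)) / Real.exp (-Λ ((h : ℝ) / Real.log n)) := by
  have hl : 0 < Real.log n := Real.log_pos (by exact_mod_cast hn)
  have e1 : ((n + h + 1 : ℕ) : ℝ) - n = ((h + 1 : ℕ) : ℝ) := by push_cast; ring
  have e2 : ((n + h + 1 : ℕ) : ℝ) - 1 - n = (h : ℝ) := by push_cast; ring
  unfold hz
  rw [e1, e2]
  have h1 : Λ ((h : ℝ) / Real.log n) ≤ Λ (((h + 1 : ℕ) : ℝ) / Real.log n) := by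
    apply hΛ
    apply div_le_div_of_nonneg_right _ hl.le
    push_cast; linarith
  refine ⟨?_, ?_, ?_⟩
  · rw [sub_nonneg]
    exact Real.exp_le_one_iff.2 (by linarith)
  · have := Real.exp_pos (-(Λ (((h + 1 : ℕ) : ℝ) / Real.log n) - Λ ((h : ℝ) / Real.log n)))
    linarith
  · rw [sub_sub_cancel, ← Real.exp_sub]
    congr 1
    ring

lemma prob_tl {Λ : ℝ → ℝ} (hΛ : Monotone Λ) (h0 : Λ 0 = 0) {n : ℕ} (hn : 2 ≤ n)
    {B : Set (ℕ → ℝ)} (hB : MeasurableSet[Co n] B) (h : ℕ) :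
    MeasurableSet[Co (n + h)] (B ∩ Tl Λ n h) ∧
      Pm.real (B ∩ Tl Λ n h) = Real.exp (-Λ (h / Real.log n)) * Pm.real B := by
  induction h with
  | zero =>
    have e : Tl Λ n 0 = Set.univ := by
      ext u
      simp [Tl]
    rw [e, Set.inter_univ]
    refine ⟨hB, ?_⟩
    rw [Nat.cast_zero, zero_div, h0, neg_zero, Real.exp_zero, one_mul]
  | succ h ih =>
    obtain ⟨ih1, ih2⟩ := ih
    obtain ⟨b1, b2, b3⟩ := hz_bounds hΛ hn h
    rw [tl_succ, ← Set.inter_assoc]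
    constructor
    · refine @MeasurableSet.inter _ (Co (n + (h + 1))) _ _ (co_mono (by omega) _ ih1) ?_
      exact (meas_coord (n := n + (h + 1)) (k := n + h + 1) (by omega)) measurableSet_Ici
    · rw [step ih1 b1 b2, ih2, b3]
      have := Real.exp_pos (-Λ ((h : ℝ) / Real.log n))
      field_simp

lemma prob_free {Λ : ℝ → ℝ} (hΛ : Monotone Λ) (h0 : Λ 0 = 0) {n : ℕ} (hn : 2 ≤ n)
    {B : Set (ℕ → ℝ)} (hB : MeasurableSet[Co n] B) (hBE : B ⊆ Ev Λ n) (h : ℕ) :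
    Pm.real (B ∩ Free (Ev Λ) n (n + h)) = Real.exp (-Λ (h / Real.log n)) * Pm.real B := by
  have e : B ∩ Free (Ev Λ) n (n + h) = B ∩ Tl Λ n h := by
    ext u
    simp only [Set.mem_inter_iff]
    refine and_congr_right fun hu => ?_
    exact (free_iff hn (hBE hu) h).1
  rw [e]
  exact (prob_tl hΛ h0 hn hB h).2

lemma two_mem (Λ : ℝ → ℝ) (u : ℕ → ℝ) : u ∈ Ev Λ 2 := by
  show last Λ u 2 = 2
  have h0 : last Λ u 0 = 0 := by rw [last]
  have h1 : last Λ u 1 = 1 := by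
    rw [last, h0, if_pos (Or.inl (by norm_num))]
  rw [last, h1, if_pos (Or.inl (by norm_num))]

theorem exi : S_EXI := by
  intro Λ hΛ
  refine ⟨ℕ → ℝ, inferInstance, Pm, inferInstance, Ev Λ, fun n => co_le n _ (meas_ev Λ le_rfl), ?_,
    fun n h hn B hB hBE => prob_free hΛ.mono hΛ.zero hn (past_le Λ n _ hB) hBE h⟩
  have hinf : Tendsto Λ atTop atTop := by
    have h1 : ∀ᶠ t : ℝ in atTop, Real.log t ≤ Λ t := by
      filter_upwards [hΛ.light.eventually_ge_atTop 1, eventually_gt_atTop 1] with t h1 h2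
      rwa [le_div_iff₀ (Real.log_pos h2), one_mul] at h1
    exact tendsto_atTop_mono' _ h1 Real.tendsto_log_atTop
  have hS : ∀ n : ℕ, 2 ≤ n → Pm (Ev Λ n ∩ {u | ∀ m, n < m → u ∉ Ev Λ m}) = 0 := by
    intro n hn
    have hl : 0 < Real.log n := Real.log_pos (by exact_mod_cast hn)
    have h1 : ∀ h : ℕ, Pm.real (Ev Λ n ∩ {u | ∀ m, n < m → u ∉ Ev Λ m}) ≤
        Real.exp (-Λ (h / Real.log n)) := by
      intro h
      have h2 : Pm.real (Ev Λ n ∩ {u | ∀ m, n < m → u ∉ Ev Λ m}) ≤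
          Pm.real (Ev Λ n ∩ Free (Ev Λ) n (n + h)) :=
        measureReal_mono (Set.inter_subset_inter_right _ fun u hu m h3 _ => hu m h3)
      rw [prob_free hΛ.mono hΛ.zero hn (meas_ev Λ le_rfl) subset_rfl h] at h2
      refine h2.trans ?_
      have h3 : Pm.real (Ev Λ n) ≤ 1 := measureReal_le_one
      have h4 := Real.exp_pos (-Λ ((h : ℝ) / Real.log n))
      nlinarith
    have h2 : Tendsto (fun h : ℕ => Real.exp (-Λ (h / Real.log n))) atTop (𝓝 0) := by
      refine Real.tendsto_exp_neg_atTop_nhds_zero.comp (hinf.comp ?_)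
      exact tendsto_natCast_atTop_atTop.atTop_div_const hl
    have h3 : Pm.real (Ev Λ n ∩ {u | ∀ m, n < m → u ∉ Ev Λ m}) ≤ 0 := ge_of_tendsto' h2 h1
    exact (measureReal_eq_zero_iff).1 (le_antisymm h3 measureReal_nonneg)
  have hae : ∀ᵐ u ∂Pm, ∀ n : ℕ, 2 ≤ n → ¬ (u ∈ Ev Λ n ∩ {u | ∀ m, n < m → u ∉ Ev Λ m}) := by
    rw [ae_all_iff]
    intro n
    by_cases hn : 2 ≤ n
    · have := measure_eq_zero_iff_ae_notMem.1 (hS n hn)
      filter_upwards [this] with u hu _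
      exact hu
    · exact Eventually.of_forall fun u h => absurd h hn
  filter_upwards [hae] with u hu
  by_contra hfin
  rw [Set.not_infinite] at hfin
  obtain ⟨M, hM, hmax⟩ := Set.exists_max_image {n | u ∈ Ev Λ n} id hfin ⟨2, two_mem Λ u⟩
  refine hu M (hmax 2 (two_mem Λ u)) ⟨hM, fun m hm hmE => ?_⟩
  exact absurd (hmax m hmE) (not_le.2 hm)

end Pool.Agent.H76.HZ
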